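import Mathlib

/-!
# Rolle count for polynomials with hierarchically close nodes

For `P ∈ ℝ[X][T]`, the leading form of weight `w` is the lowest coefficient in `X` of
`P(X, X ^ w * T)`, a real polynomial in `T`.
-/

set_option autoImplicit false

namespace Pool.Agent.Helper449_Dope

open Polynomial Finset

/-! ### Real polynomials -/

/-- The number of zeros in the open unit interval. -/
noncomputable def zin (q : ℝ[X]) : ℕ := (q.roots.toFinset.filter (fun t => 0 < t ∧ t < 1)).card

open Classical in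
/-- `1` if `q` vanishes at `t`. -/
noncomputable def iz {R : Type*} [CommRing R] (q : R[X]) (t : R) : ℕ := if q.eval t = 0 then 1 else 0

theorem iz_pos {R : Type*} [CommRing R] {q : R[X]} {t : R} (h : q.eval t = 0) : iz q t = 1 := by
  simp [iz, h]

theorem iz_neg {R : Type*} [CommRing R] {q : R[X]} {t : R} (h : q.eval t ≠ 0) : iz q t = 0 := by
  simp [iz, h]

theorem iz_le {R : Type*} [CommRing R] (q : R[X]) (t : R) : iz q t ≤ 1 := by
  unfold iz; split_ifs <;> omega

theorem rolle_step {q : ℝ[X]} (hq : derivative q ≠ 0) :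
    zin q + iz q 0 + iz q 1 ≤ zin (derivative q) + 1 := by
  classical
  have hq0 : q ≠ 0 := fun h => hq (by rw [h, derivative_zero])
  set W := q.roots.toFinset.filter (fun t => 0 ≤ t ∧ t ≤ 1) with hW
  have h1 : W.card ≤ zin (derivative q) + 1 := by
    unfold zin
    apply Finset.card_le_of_interleaved
    intro x hx y hy hxy _
    rw [hW, mem_filter, Multiset.mem_toFinset, mem_roots hq0] at hx hy
    obtain ⟨z, hz, hz'⟩ := exists_deriv_eq_zero (f := fun t => q.eval t) hxy
      q.continuous.continuousOn (hx.1.trans hy.1.symm)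
    refine ⟨z, ?_, hz.1, hz.2⟩
    rw [mem_filter, Multiset.mem_toFinset, mem_roots hq]
    rw [Polynomial.deriv] at hz'
    exact ⟨hz', hx.2.1.trans_lt hz.1, hz.2.trans_le hy.2.2⟩
  refine le_trans ?_ h1
  have h2 : (q.roots.toFinset.filter (fun t => 0 < t ∧ t < 1)) ∪
      ((if q.eval 0 = 0 then {0} else ∅) ∪ (if q.eval 1 = 0 then {1} else ∅)) ⊆ W := by
    intro t ht
    rw [hW, mem_filter, Multiset.mem_toFinset, mem_roots hq0]
    rw [mem_union, mem_union, mem_filter, Multiset.mem_toFinset, mem_roots hq0] at ht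
    rcases ht with ht | ht | ht
    · exact ⟨ht.1, ht.2.1.le, ht.2.2.le⟩
    · split_ifs at ht with h
      · rw [mem_singleton] at ht; subst ht; exact ⟨h, le_rfl, zero_le_one⟩
      · simp at ht
    · split_ifs at ht with h
      · rw [mem_singleton] at ht; subst ht; exact ⟨h, zero_le_one, le_rfl⟩
      · simp at ht
  refine le_trans ?_ (card_le_card h2)
  rw [card_union_of_disjoint, card_union_of_disjoint]
  · unfold zin iz
    split_ifs <;> simp
  · split_ifs <;> simp
  · rw [Finset.disjoint_left]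
    intro t ht ht'
    rw [mem_filter] at ht
    rw [mem_union] at ht'
    rcases ht' with ht' | ht'
    · split_ifs at ht'
      · rw [mem_singleton] at ht'; exact ht.2.1.ne' ht'
      · simp at ht'
    · split_ifs at ht'
      · rw [mem_singleton] at ht'; exact ht.2.2.ne ht'
      · simp at ht'

theorem zin_C (c : ℝ) : zin (C c) = 0 := by
  simp [zin]

/-! ### The forms -/

/-- The coefficient of `X ^ e` in `P(X, X ^ w * T)`. -/
noncomputable def lf (w e : ℕ) (P : ℝ[X][X]) : ℝ[X] :=
  ∑ k ∈ range (P.natDegree + 1),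
    monomial k (if w * k ≤ e then (P.coeff k).coeff (e - w * k) else 0)

theorem coeff_lf (w e : ℕ) (P : ℝ[X][X]) (k : ℕ) :
    (lf w e P).coeff k = if w * k ≤ e then (P.coeff k).coeff (e - w * k) else 0 := by
  unfold lf
  rw [finsetSum_coeff]
  simp only [coeff_monomial]
  rw [Finset.sum_ite_eq' (range (P.natDegree + 1)) k
    (fun b => if w * b ≤ e then (P.coeff b).coeff (e - w * b) else 0)]
  split_ifs with h1 h2 h2
  · rfl
  · rfl
  · rw [mem_range, not_lt] at h1
    rw [coeff_eq_zero_of_natDegree_lt (p := P) (by omega), coeff_zero]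
  · rfl

theorem lf_derivative (w e : ℕ) (P : ℝ[X][X]) :
    derivative (lf w (e + w) P) = lf w e (derivative P) := by
  ext k
  rw [coeff_derivative, coeff_lf, coeff_lf, coeff_derivative]
  have h1 : (w * (k + 1) ≤ e + w) ↔ w * k ≤ e := by rw [Nat.mul_add]; omega
  simp only [h1]
  split_ifs with h
  · have h2 : e + w - w * (k + 1) = e - w * k := by rw [Nat.mul_add]; omega
    rw [h2]
    have h3 : ((k : ℝ[X]) + 1) = C ((k : ℝ) + 1) := by simp
    rw [h3, coeff_mul_C]
  · simp

theorem eval_one_lf (w e : ℕ) (P : ℝ[X][X]) :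
    (lf w e P).eval 1 = (P.eval (X ^ w)).coeff e := by
  unfold lf
  rw [eval_finsetSum, eval_eq_sum_range, finsetSum_coeff]
  refine sum_congr rfl fun k _ => ?_
  rw [eval_monomial, one_pow, mul_one, ← pow_mul, coeff_mul_X_pow']

theorem eval_zero_lf (w e : ℕ) (P : ℝ[X][X]) :
    (lf w e P).eval 0 = (P.eval 0).coeff e := by
  rw [← coeff_zero_eq_eval_zero, ← coeff_zero_eq_eval_zero, coeff_lf]
  simp

theorem exists_lf_ne (w : ℕ) {P : ℝ[X][X]} (hP : P ≠ 0) : ∃ e, lf w e P ≠ 0 := by
  obtain ⟨k, hk⟩ : ∃ k, P.coeff k ≠ 0 := by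
    by_contra h
    push Not at h
    exact hP (Polynomial.ext (by simpa using h))
  obtain ⟨i, hi⟩ : ∃ i, (P.coeff k).coeff i ≠ 0 := by
    by_contra h
    push Not at h
    exact hk (Polynomial.ext (by simpa using h))
  refine ⟨i + w * k, fun h => hi ?_⟩
  have h1 := coeff_lf w (i + w * k) P k
  rw [h, if_pos (by omega)] at h1
  simpa using h1.symm

/-- The least weight. -/
noncomputable def mw (w : ℕ) (P : ℝ[X][X]) : ℕ := sInf {e | lf w e P ≠ 0}

/-- The leading form. -/
noncomputable def ld (w : ℕ) (P : ℝ[X][X]) : ℝ[X] := lf w (mw w P) P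

theorem ld_ne (w : ℕ) {P : ℝ[X][X]} (hP : P ≠ 0) : ld w P ≠ 0 :=
  Nat.sInf_mem (s := {e | lf w e P ≠ 0}) (exists_lf_ne w hP)

theorem lf_lt {w e : ℕ} {P : ℝ[X][X]} (h : e < mw w P) : lf w e P = 0 := by
  by_contra h1
  exact Nat.notMem_of_lt_sInf h h1

theorem mw_eq {w e : ℕ} {P : ℝ[X][X]} (h : lf w e P ≠ 0) (h' : ∀ e' < e, lf w e' P = 0) :
    mw w P = e := by
  apply le_antisymm
  · exact Nat.sInf_le h
  · by_contra h1
    have h2 : mw w P < e := not_le.1 h1
    exact (Nat.sInf_mem (s := {e | lf w e P ≠ 0}) ⟨e, h⟩) (h' _ h2)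

/-- The Rolle step for the leading forms. -/
theorem ld_step (w : ℕ) {P : ℝ[X][X]} (hP : P ≠ 0) :
    zin (ld w P) + iz (ld w P) 0 + iz (ld w P) 1 ≤ zin (ld w (derivative P)) + 1 := by
  by_cases h : derivative (ld w P) = 0
  · have h1 : (ld w P).natDegree = 0 := Polynomial.derivative_eq_zero.1 h
    obtain ⟨c, hc⟩ := natDegree_eq_zero.1 h1
    have hc0 : c ≠ 0 := by
      rintro rfl
      exact ld_ne w hP (by rw [← hc, C_0])
    rw [← hc, zin_C, iz_neg (by simpa using hc0), iz_neg (by simpa using hc0)]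
    omega
  · have h1 : w ≤ mw w P := by
      by_contra h1
      apply h
      ext k
      rw [coeff_derivative, ld, coeff_lf, if_neg, zero_mul, coeff_zero]
      rw [Nat.mul_add]
      omega
    obtain ⟨e, he⟩ : ∃ e, mw w P = e + w := ⟨mw w P - w, by omega⟩
    have h2 : lf w e (derivative P) ≠ 0 := by
      rw [← lf_derivative, ← he]; exact h
    have h3 : mw w (derivative P) = e := by
      refine mw_eq h2 fun e' he' => ?_
      rw [← lf_derivative, lf_lt (by omega), derivative_zero]
    have h4 : ld w (derivative P) = derivative (ld w P) := by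
      rw [ld, h3, ← lf_derivative, ← he, ld]
    rw [h4]
    exact rolle_step h

/-- Zeros at the nodes are zeros of the leading forms. -/
theorem ld_one {w : ℕ} {P : ℝ[X][X]} (h : P.eval (X ^ w) = 0) : (ld w P).eval 1 = 0 := by
  rw [ld, eval_one_lf, h, coeff_zero]

theorem ld_zero {w : ℕ} {P : ℝ[X][X]} (h : P.eval 0 = 0) : (ld w P).eval 0 = 0 := by
  rw [ld, eval_zero_lf, h, coeff_zero]

/-- If the leading form does not vanish at `0` then the leading forms of larger weight are
constants. -/
theorem ld_const {w w' : ℕ} {P : ℝ[X][X]} (h : (ld w P).eval 0 ≠ 0) (hw : w < w') :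
    ∃ c ≠ 0, ld w' P = C c := by
  set μ := mw w P with hμ
  rw [ld, eval_zero_lf, ← coeff_zero_eq_eval_zero, ← hμ] at h
  have h1 : ∀ k i, (P.coeff k).coeff i ≠ 0 → μ ≤ i + w * k := by
    intro k i hi
    by_contra h2
    have h3 := lf_lt (w := w) (e := i + w * k) (P := P) (by omega)
    have h4 := coeff_lf w (i + w * k) P k
    rw [h3, if_pos (by omega), coeff_zero, Nat.add_sub_cancel] at h4
    exact hi h4.symm
  have h2 : ∀ e k, (lf w' e P).coeff k ≠ 0 → μ + (w' - w) * k ≤ e := by
    intro e k hk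
    rw [coeff_lf] at hk
    split_ifs at hk with h3
    · have h4 := h1 k _ hk
      have h5 : (w' - w) * k + w * k = w' * k := by
        rw [← Nat.add_mul]; congr 1; omega
      omega
    · exact absurd rfl hk
  have h3 : (lf w' μ P).coeff 0 ≠ 0 := by
    rw [coeff_lf]; simpa using h
  have h4 : mw w' P = μ := by
    refine mw_eq (fun h4 => h3 (by rw [h4, coeff_zero])) fun e' he' => ?_
    ext k
    rw [coeff_zero]
    by_contra h5
    have := h2 e' k h5
    omega
  refine ⟨(lf w' μ P).coeff 0, h3, ?_⟩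
  ext k
  rw [ld, h4, coeff_C]
  split_ifs with h5
  · rw [h5]
  · by_contra h6
    have h7 := h2 μ k h6
    have h8 : 0 < (w' - w) * k := Nat.mul_pos (by omega) (by omega)
    omega

/-- The potential. -/
noncomputable def pot (W : Finset ℕ) (P : ℝ[X][X]) : ℕ := ∑ w ∈ W, zin (ld w P)

/-- The number of nodes that are zeros. -/
noncomputable def nz (W : Finset ℕ) (P : ℝ[X][X]) : ℕ := iz P 0 + ∑ w ∈ W, iz P (X ^ w)

theorem iz_le_ld_one (w : ℕ) (P : ℝ[X][X]) : iz P (X ^ w) ≤ iz (ld w P) 1 := by
  by_cases h : P.eval (X ^ w) = 0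
  · rw [iz_pos (ld_one h)]; exact iz_le _ _
  · rw [iz_neg h]; omega

theorem pot_step (W : Finset ℕ) {P : ℝ[X][X]} (hP : P ≠ 0) :
    pot W P + nz W P ≤ pot W (derivative P) + 1 := by
  classical
  have hs : ∀ w, zin (ld w P) + iz (ld w P) 0 + iz P (X ^ w) ≤ zin (ld w (derivative P)) + 1 :=
    fun w => le_trans (Nat.add_le_add_left (iz_le_ld_one w P) _) (ld_step w hP)
  unfold pot nz
  by_cases h : ∃ w ∈ W, (ld w P).eval 0 ≠ 0
  · obtain ⟨v, hv, hv0, hmin⟩ : ∃ v ∈ W, (ld v P).eval 0 ≠ 0 ∧
        ∀ w ∈ W, (ld w P).eval 0 ≠ 0 → v ≤ w := by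
      have hne : (W.filter fun w => (ld w P).eval 0 ≠ 0).Nonempty := by
        obtain ⟨w, hw, hw'⟩ := h
        exact ⟨w, mem_filter.2 ⟨hw, hw'⟩⟩
      have h1 := mem_filter.1 (min'_mem _ hne)
      exact ⟨_, h1.1, h1.2, fun w hw hw' => min'_le _ _ (mem_filter.2 ⟨hw, hw'⟩)⟩
    have h0 : iz P 0 = 0 := iz_neg fun h0 => hv0 (ld_zero h0)
    have h1 : ∀ w ∈ W, zin (ld w P) + iz P (X ^ w) ≤
        zin (ld w (derivative P)) + (if w = v then 1 else 0) := by
      intro w hw
      rcases lt_trichotomy w v with h2 | h2 | h2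
      · have h3 : (ld w P).eval 0 = 0 := by
          by_contra h3
          have := hmin w hw h3
          omega
        have h4 := hs w
        rw [iz_pos h3] at h4
        omega
      · rw [if_pos h2]
        have := hs w
        omega
      · obtain ⟨c, hc, hc'⟩ := ld_const hv0 h2
        have h3 : iz P (X ^ w) = 0 := by
          refine iz_neg fun h3 => hc ?_
          have := ld_one h3
          rwa [hc', eval_C] at this
        rw [hc', zin_C, h3]
        omega
    calc ∑ w ∈ W, zin (ld w P) + (iz P 0 + ∑ w ∈ W, iz P (X ^ w))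
        = ∑ w ∈ W, (zin (ld w P) + iz P (X ^ w)) := by rw [sum_add_distrib, h0, zero_add]
      _ ≤ ∑ w ∈ W, (zin (ld w (derivative P)) + (if w = v then 1 else 0)) := sum_le_sum h1
      _ = ∑ w ∈ W, zin (ld w (derivative P)) + 1 := by
          rw [sum_add_distrib, Finset.sum_ite_eq' W v, if_pos hv]
  · push Not at h
    have h1 : ∀ w ∈ W, zin (ld w P) + iz P (X ^ w) ≤ zin (ld w (derivative P)) := by
      intro w hw
      have h2 := hs w
      rw [iz_pos (h w hw)] at h2
      omega
    have h2 := sum_le_sum h1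
    rw [sum_add_distrib] at h2
    have h3 := iz_le P 0
    omega

/-- The count of the zeros of all derivatives at the nodes. -/
theorem count (W : Finset ℕ) : ∀ (d : ℕ) (P : ℝ[X][X]), P ≠ 0 → P.natDegree = d →
    pot W P + ∑ j ∈ range (d + 1), nz W (derivative^[j] P) ≤ d := by
  intro d
  induction d with
  | zero =>
    intro P hP hd
    obtain ⟨c, rfl⟩ := natDegree_eq_zero.1 hd
    have hc : c ≠ 0 := by
      rintro rfl
      exact hP C_0
    have h1 : ∀ w, zin (ld w (C c)) = 0 := by
      intro w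
      have h2 : (ld w (C c)).natDegree = 0 := by
        rw [natDegree_eq_zero]
        refine ⟨(ld w (C c)).coeff 0, ?_⟩
        ext k
        rw [coeff_C]
        split_ifs with h3
        · rw [h3]
        · rw [ld, coeff_lf, coeff_C, if_neg h3]
          simp
      obtain ⟨r, hr⟩ := natDegree_eq_zero.1 h2
      rw [← hr, zin_C]
    have h2 : ∀ t, iz (C c) t = 0 := fun t => iz_neg (by simpa using hc)
    simp [pot, nz, h1, h2]
  | succ d ih =>
    intro P hP hd
    have h1 : derivative P ≠ 0 := by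
      intro h
      have := Polynomial.derivative_eq_zero.1 h
      omega
    have h2 : (derivative P).natDegree = d := by
      have h3 : (derivative P).degree = ((P.natDegree - 1 : ℕ) : WithBot ℕ) :=
        degree_derivative (by omega)
      rw [natDegree_eq_of_degree_eq_some h3, hd, Nat.add_sub_cancel]
    have h3 := ih _ h1 h2
    have h4 := pot_step W hP
    rw [sum_range_succ']
    simp only [Function.iterate_succ, Function.comp_apply, Function.iterate_zero, id]
    omega

end Pool.Agent.Helper449_Dope
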