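import Pool.Agent.Helper449_Dope.Transfer

/-!
# Zero patterns for nodes with the property `PB`
-/

set_option autoImplicit false

namespace Pool.Agent.Helper449_Dope

open Polynomial Finset

theorem iter_natDegree {P : ℂ[X]} (hP : P ≠ 0) : ∀ k : ℕ, k ≤ P.natDegree →
    derivative^[k] P ≠ 0 ∧ (derivative^[k] P).natDegree = P.natDegree - k
  | 0, _ => ⟨hP, by simp⟩
  | k + 1, hk => by
    obtain ⟨h1, h2⟩ := iter_natDegree hP k (by omega)
    rw [Function.iterate_succ_apply']
    have h3 : (derivative^[k] P).natDegree ≠ 0 := by omega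
    have h4 := degree_derivative h3
    refine ⟨fun h => ?_, ?_⟩
    · rw [h, degree_zero] at h4
      exact absurd h4.symm (by simp)
    · rw [natDegree_eq_of_degree_eq_some h4, h2]
      omega

variable {m : ℕ} {Λ : Fin m → ℂ}

/-- The count for the derivatives of order at least `k`. -/
theorem PB.bound (h : PB Λ) {P : ℂ[X]} (hP : P ≠ 0) {k : ℕ} (hk : k ≤ P.natDegree)
    (Y : Finset (Fin m × ℕ))
    (hY : ∀ p ∈ Y, k ≤ p.2 ∧ p.2 ≤ P.natDegree ∧ (derivative^[p.2] P).eval (Λ p.1) = 0) :
    Y.card + k ≤ P.natDegree := by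
  classical
  obtain ⟨h1, h2⟩ := iter_natDegree hP k hk
  have h3 := h _ h1 (Y.image fun p => (p.1, p.2 - k)) (by
    intro p hp
    obtain ⟨q, hq, rfl⟩ := mem_image.1 hp
    obtain ⟨h4, h5, h6⟩ := hY q hq
    refine ⟨by rw [h2]; simp only; omega, ?_⟩
    simp only
    rw [← Function.iterate_add_apply, Nat.sub_add_cancel h4]
    exact h6)
  rw [card_image_of_injOn, h2] at h3
  · omega
  · intro p hp q hq hpq
    simp only [Prod.mk.injEq] at hpq
    have h4 := (hY p hp).1
    have h5 := (hY q hq).1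
    exact Prod.ext hpq.1 (by omega)

/-- Extension to a full set of conditions. -/
theorem extend (i₀ : Fin m) {n : ℕ} : ∀ (r : ℕ) (Z : Finset (Fin m × ℕ)),
    (∀ p ∈ Z, p.2 ≤ n) → (∀ k ≤ n, (Z.filter fun p => k ≤ p.2).card + k ≤ n + 1) →
    Z.card + r = n + 1 →
    ∃ Z' : Finset (Fin m × ℕ), Z ⊆ Z' ∧ (∀ p ∈ Z', p.2 ≤ n) ∧
      (∀ k ≤ n, (Z'.filter fun p => k ≤ p.2).card + k ≤ n + 1) ∧ Z'.card = n + 1 := by
  classical
  intro r
  induction r with
  | zero => exact fun Z h1 h2 h3 => ⟨Z, Subset.rfl, h1, h2, h3⟩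
  | succ r ih =>
    intro Z h1 h2 h3
    have hex : ∃ j, (i₀, j) ∉ Z := by
      by_contra h
      push Not at h
      exact absurd (h1 _ (h (n + 1))) (by simp)
    set j := Nat.find hex with hj
    have hjZ : (i₀, j) ∉ Z := Nat.find_spec hex
    have hlt : ∀ j' < j, (i₀, j') ∈ Z := fun j' h => by
      by_contra h'
      exact Nat.find_min hex h h'
    -- few elements of large order
    have hcard : ∀ k ≤ j, (Z.filter fun p => k ≤ p.2).card + k ≤ Z.card := by
      intro k hk
      have h4 : (Z.filter fun p => k ≤ p.2) ∪ (range k).image (fun j' => (i₀, j')) ⊆ Z := by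
        intro p hp
        rcases mem_union.1 hp with hp | hp
        · exact (mem_filter.1 hp).1
        · obtain ⟨j', hj', rfl⟩ := mem_image.1 hp
          exact hlt j' (by rw [mem_range] at hj'; omega)
      have h5 := card_le_card h4
      rw [card_union_of_disjoint, card_image_of_injective _ (fun a b h => by simpa using h),
        card_range] at h5
      · exact h5
      · rw [Finset.disjoint_left]
        intro p hp hp'
        obtain ⟨j', hj', rfl⟩ := mem_image.1 hp'
        have h6 := (mem_filter.1 hp).2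
        rw [mem_range] at hj'
        simp only at h6
        omega
    have hjn : j ≤ n := by
      by_contra h
      have h4 := hcard (n + 1) (by omega)
      omega
    obtain ⟨Z', h4, h5, h6, h7⟩ := ih (insert (i₀, j) Z) (by
        intro p hp
        rcases mem_insert.1 hp with rfl | hp
        · exact hjn
        · exact h1 p hp) (by
        intro k hk
        rw [filter_insert]
        split_ifs with h4
        · have h5 := hcard k h4
          have h6 := card_insert_le (i₀, j) (Z.filter fun p => k ≤ p.2)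
          omega
        · exact h2 k hk) (by
        rw [card_insert_of_notMem hjZ]; omega)
    exact ⟨Z', (subset_insert _ _).trans h4, h5, h6, h7⟩

/-- The evaluation of a derivative as a linear functional. -/
noncomputable def ev (Λ : Fin m → ℂ) (p : Fin m × ℕ) : ℂ[X] →ₗ[ℂ] ℂ :=
  (Polynomial.leval (Λ p.1)).comp ((derivative : ℂ[X] →ₗ[ℂ] ℂ[X]) ^ p.2)

theorem ev_apply (p : Fin m × ℕ) (P : ℂ[X]) :
    ev Λ p P = (derivative^[p.2] P).eval (Λ p.1) := by
  rw [ev, LinearMap.comp_apply, leval_apply, Module.End.pow_apply]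

/-- A full set of conditions can be prescribed. -/
theorem PB.solve (h : PB Λ) {n : ℕ} (Z : Finset (Fin m × ℕ)) (hZ : ∀ p ∈ Z, p.2 ≤ n)
    (hZ' : ∀ k ≤ n, (Z.filter fun p => k ≤ p.2).card + k ≤ n + 1) (hc : Z.card = n + 1)
    (p₀ : Fin m × ℕ) (hp₀ : p₀ ∈ Z) :
    ∃ P ∈ degreeLT ℂ (n + 1), ev Λ p₀ P ≠ 0 ∧ ∀ p ∈ Z, p ≠ p₀ → ev Λ p P = 0 := by
  classical
  let T : degreeLT ℂ (n + 1) →ₗ[ℂ] (Z → ℂ) :=
    LinearMap.pi fun p : Z => (ev Λ p.1).domRestrict (degreeLT ℂ (n + 1))
  have hT : ∀ P p, T P p = ev Λ p.1 P := fun P p => rfl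
  have hinj : Function.Injective T := by
    rw [injective_iff_map_eq_zero]
    intro P hP
    by_contra hne
    have hne' : (P : ℂ[X]) ≠ 0 := fun h' => hne (Subtype.ext h')
    have hd : (P : ℂ[X]).natDegree < n + 1 := by
      have h1 := P.2
      rw [mem_degreeLT] at h1
      exact (natDegree_lt_iff_degree_lt hne').2 h1
    have h1 : (Z.filter fun p => ¬ ((P : ℂ[X]).natDegree + 1 ≤ p.2)).card ≤
        (P : ℂ[X]).natDegree := by
      apply h _ hne'
      intro p hp
      obtain ⟨h2, h3⟩ := mem_filter.1 hp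
      refine ⟨by omega, ?_⟩
      rw [← ev_apply]
      exact congrFun hP ⟨p, h2⟩
    have h2 := card_filter_add_card_filter_not (s := Z)
      (fun p => (P : ℂ[X]).natDegree + 1 ≤ p.2)
    rcases Nat.lt_or_ge (P : ℂ[X]).natDegree n with h3 | h3
    · have h4 := hZ' _ (show (P : ℂ[X]).natDegree + 1 ≤ n by omega)
      omega
    · have h4 : (Z.filter fun p => (P : ℂ[X]).natDegree + 1 ≤ p.2) = ∅ := by
        rw [filter_eq_empty_iff]
        intro p hp
        have := hZ p hp
        omega
      rw [h4, card_empty] at h2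
      omega
  have hdim : Module.finrank ℂ (degreeLT ℂ (n + 1)) = Module.finrank ℂ (Z → ℂ) := by
    rw [(degreeLTEquiv ℂ (n + 1)).finrank_eq, Module.finrank_fin_fun, Module.finrank_fintype_fun_eq_card,
      Fintype.card_coe, hc]
  have _ : FiniteDimensional ℂ (degreeLT ℂ (n + 1)) :=
    LinearEquiv.finiteDimensional (degreeLTEquiv ℂ (n + 1)).symm
  have hsurj : Function.Surjective T :=
    (LinearMap.injective_iff_surjective_of_finrank_eq_finrank hdim).1 hinj
  obtain ⟨P, hP⟩ := hsurj (Pi.single ⟨p₀, hp₀⟩ 1)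
  refine ⟨P, P.2, ?_, fun p hp hne => ?_⟩
  · have h1 := congrFun hP ⟨p₀, hp₀⟩
    rw [hT, Pi.single_eq_same] at h1
    rw [h1]
    exact one_ne_zero
  · have h1 := congrFun hP ⟨p, hp⟩
    rw [hT, Pi.single_eq_of_ne (fun h' => hne (congrArg Subtype.val h'))] at h1
    exact h1

/-- Every pattern with the right counts is the zero pattern of a polynomial. -/
theorem PB.exists_pattern (h : PB Λ) (hm : 0 < m) {n : ℕ} (Z : Finset (Fin m × ℕ))
    (hZ : ∀ p ∈ Z, p.2 ≤ n) (hZ' : ∀ k ≤ n, (Z.filter fun p => k ≤ p.2).card + k ≤ n) :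
    ∃ P : ℂ[X], P.degree = n ∧ ∀ i, ∀ j ≤ n, (derivative^[j] P).eval (Λ i) = 0 ↔ (i, j) ∈ Z := by
  classical
  set V : Submodule ℂ ℂ[X] := degreeLT ℂ (n + 1) ⊓ ⨅ p ∈ Z, LinearMap.ker (ev Λ p) with hV
  have hVmem : ∀ P, P ∈ V ↔ P ∈ degreeLT ℂ (n + 1) ∧ ∀ p ∈ Z, ev Λ p P = 0 := by
    intro P
    rw [hV, Submodule.mem_inf, Submodule.mem_iInf]
    simp only [Submodule.mem_iInf, LinearMap.mem_ker]
  set I : Finset (Fin m × ℕ) := (univ ×ˢ range (n + 1)) \ Z with hI
  obtain ⟨P, hP, hP'⟩ := Module.Dual.exists_forall_mem_ne_zero_of_forall_exists V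
    (fun p : I => ev Λ p.1) (by
      rintro ⟨p, hp⟩
      rw [hI, mem_sdiff, mem_product, mem_range] at hp
      obtain ⟨⟨-, hp1⟩, hp2⟩ := hp
      have h1 : ∀ k ≤ n, ((insert p Z).filter fun p => k ≤ p.2).card + k ≤ n + 1 := by
        intro k hk
        rw [filter_insert]
        have h2 := hZ' k hk
        split_ifs
        · have h3 := card_insert_le p (Z.filter fun p => k ≤ p.2)
          omega
        · omega
      have h2 : (insert p Z).card ≤ n + 1 := by
        have h3 := h1 0 (Nat.zero_le _)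
        simpa using h3
      obtain ⟨Z', h3, h4, h5, h6⟩ := extend ⟨0, hm⟩ (n + 1 - (insert p Z).card) (insert p Z) (by
          intro q hq
          rcases mem_insert.1 hq with rfl | hq
          · omega
          · exact hZ q hq) h1 (by omega)
      obtain ⟨P, h7, h8, h9⟩ := h.solve Z' h4 h5 h6 p (h3 (mem_insert_self _ _))
      refine ⟨P, (hVmem P).2 ⟨h7, fun q hq => h9 q (h3 (mem_insert_of_mem hq)) ?_⟩, h8⟩
      rintro rfl
      exact hp2 hq)
  obtain ⟨h1, h2⟩ := (hVmem P).1 hP
  have key : ∀ i, ∀ j ≤ n, (derivative^[j] P).eval (Λ i) = 0 ↔ (i, j) ∈ Z := by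
    intro i j hj
    constructor
    · intro h3
      by_contra h4
      have h5 : (i, j) ∈ I := by
        rw [hI, mem_sdiff, mem_product, mem_range]
        exact ⟨⟨mem_univ _, by omega⟩, h4⟩
      apply hP' ⟨_, h5⟩
      rw [ev_apply]
      exact h3
    · intro h3
      have h4 := h2 _ h3
      rwa [ev_apply] at h4
  refine ⟨P, ?_, key⟩
  have h3 : (derivative^[n] P).eval (Λ ⟨0, hm⟩) ≠ 0 := by
    rw [Ne, key _ _ le_rfl]
    intro h4
    have h5 := hZ' n le_rfl
    have h6 : 0 < (Z.filter fun p => n ≤ p.2).card :=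
      card_pos.2 ⟨_, mem_filter.2 ⟨h4, le_rfl⟩⟩
    omega
  have hP0 : P ≠ 0 := by
    rintro rfl
    apply h3
    rw [iterate_derivative_zero, eval_zero]
  rw [mem_degreeLT] at h1
  have h4 : P.natDegree < n + 1 := (natDegree_lt_iff_degree_lt hP0).2 h1
  have h5 : ¬ P.natDegree < n := by
    intro h5
    apply h3
    rw [iterate_derivative_eq_zero h5, eval_zero]
  rw [degree_eq_natDegree hP0]
  congr 1
  omega

/-- Two sets of nodes with the property `PB` have the same zero patterns. -/
theorem PB.transfer {Λ' : Fin m → ℂ} (h : PB Λ) (h' : PB Λ') (hm : 0 < m) {n : ℕ} {P : ℂ[X]}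
    (hP : P.degree = n) : ∃ P' : ℂ[X], P'.degree = n ∧
      ∀ i, ∀ j ≤ n, (derivative^[j] P').eval (Λ' i) = 0 ↔ (derivative^[j] P).eval (Λ i) = 0 := by
  classical
  have hP0 : P ≠ 0 := by
    rintro rfl
    simp at hP
  have hd : P.natDegree = n := natDegree_eq_of_degree_eq_some hP
  obtain ⟨P', h1, h2⟩ := h'.exists_pattern hm (n := n)
    (((univ : Finset (Fin m)) ×ˢ range (n + 1)).filter
      fun p => (derivative^[p.2] P).eval (Λ p.1) = 0)
    (by
      intro p hp
      have := (mem_product.1 (mem_filter.1 hp).1).2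
      rw [mem_range] at this
      omega)
    (by
      intro k hk
      rw [← hd]
      refine h.bound hP0 (by omega) _ fun p hp => ?_
      obtain ⟨h3, h4⟩ := mem_filter.1 hp
      obtain ⟨h5, h6⟩ := mem_filter.1 h3
      have h7 := (mem_product.1 h5).2
      rw [mem_range] at h7
      exact ⟨h4, by omega, h6⟩)
  refine ⟨P', h1, fun i j hj => ?_⟩
  rw [h2 i j hj, mem_filter, mem_product, mem_range]
  constructor
  · exact fun h => h.2
  · exact fun h => ⟨⟨mem_univ _, by omega⟩, h⟩

end Pool.Agent.Helper449_Dope
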