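import Pool.Agent.Helper449_Dope.Lead

/-!
# Transfer to complex polynomials
-/

set_option autoImplicit false

namespace Pool.Agent.Helper449_Dope

open Polynomial Finset

/-- The value of an iterated derivative. -/
theorem eval_iter {R : Type*} [CommRing R] (P : R[X]) (j N : ℕ) (hN : P.natDegree < N) (y : R) :
    (derivative^[j] P).eval y =
      ∑ m ∈ range N, ((m + j).descFactorial j : R) * P.coeff (m + j) * y ^ m := by
  rw [eval_eq_sum_range' (n := N)
    (lt_of_le_of_lt ((natDegree_iterate_derivative P j).trans (Nat.sub_le _ _)) hN)]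
  refine sum_congr rfl fun m _ => ?_
  rw [coeff_iterate_derivative, nsmul_eq_mul]

/-- A polynomial over `ℚ[X]` that keeps the degree and the zeros. -/
theorem exists_poly {x : ℂ} (hx : Transcendental ℚ x) {P : ℂ[X]} (hP : P ≠ 0) :
    ∃ R : ℚ[X][X], R ≠ 0 ∧ R.natDegree = P.natDegree ∧
      ∀ (j : ℕ) (q : ℚ[X]), (derivative^[j] P).eval (aeval x q) = 0 →
        (derivative^[j] R).eval q = 0 := by
  let _ : Algebra ℚ[X] ℂ := (aeval x).toAlgebra
  have halg : ∀ q : ℚ[X], algebraMap ℚ[X] ℂ q = aeval x q := fun q => rfl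
  have hinj : Function.Injective (algebraMap ℚ[X] ℂ) := transcendental_iff_injective.1 hx
  have _ : Module.IsTorsionFree ℚ[X] ℂ := Module.isTorsionFree_iff_algebraMap_injective.2 hinj
  set M : Submodule ℚ[X] ℂ :=
    Submodule.span ℚ[X] (Set.range fun k : Fin (P.natDegree + 1) => P.coeff k) with hM
  have hmem : ∀ k, P.coeff k ∈ M := by
    intro k
    by_cases hk : k < P.natDegree + 1
    · exact Submodule.subset_span ⟨⟨k, hk⟩, rfl⟩
    · rw [coeff_eq_zero_of_natDegree_lt (by omega)]
      exact M.zero_mem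
  have _ : Module.Finite ℚ[X] M := Module.Finite.span_of_finite _ (Set.finite_range _)
  have _ : Module.Free ℚ[X] M := inferInstance
  let b := Module.Free.chooseBasis ℚ[X] M
  have hlead : (⟨P.coeff P.natDegree, hmem _⟩ : M) ≠ 0 := by
    intro h
    have h1 := congrArg Subtype.val h
    simp only [coeff_natDegree] at h1
    exact hP (leadingCoeff_eq_zero.1 h1)
  obtain ⟨i, hi⟩ : ∃ i, b.coord i ⟨P.coeff P.natDegree, hmem _⟩ ≠ 0 := by
    by_contra h
    push Not at h
    exact hlead (b.forall_coord_eq_zero_iff.1 h)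
  set c : ℕ → ℚ[X] := fun k => b.coord i ⟨P.coeff k, hmem k⟩ with hc
  have hc0 : ∀ k, P.natDegree < k → c k = 0 := by
    intro k hk
    have h1 : (⟨P.coeff k, hmem k⟩ : M) = 0 :=
      Subtype.ext (coeff_eq_zero_of_natDegree_lt hk)
    simp only [hc, h1, map_zero]
  have hR : ∀ k, (∑ l ∈ range (P.natDegree + 1), monomial l (c l)).coeff k = c k := by
    intro k
    rw [finsetSum_coeff]
    simp only [coeff_monomial]
    rw [Finset.sum_ite_eq' (range (P.natDegree + 1)) k]
    split_ifs with h
    · rfl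
    · rw [mem_range, not_lt] at h
      exact (hc0 k (by omega)).symm
  set R : ℚ[X][X] := ∑ l ∈ range (P.natDegree + 1), monomial l (c l) with hRdef
  have hRd : R.natDegree = P.natDegree := by
    apply le_antisymm
    · rw [natDegree_le_iff_coeff_eq_zero]
      intro k hk
      rw [hR, hc0 k hk]
    · apply le_natDegree_of_ne_zero
      rw [hR]
      exact hi
  refine ⟨R, ?_, hRd, ?_⟩
  · intro h
    have h1 := hR P.natDegree
    rw [h, coeff_zero] at h1
    exact hi h1.symm
  · intro j q hq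
    rw [eval_iter P j (P.natDegree + 1) (by omega)] at hq
    rw [eval_iter R j (P.natDegree + 1) (by omega)]
    have h1 : ∑ m ∈ range (P.natDegree + 1),
        (((m + j).descFactorial j : ℚ[X]) * q ^ m) • (⟨P.coeff (m + j), hmem _⟩ : M) = 0 := by
      apply Subtype.ext
      rw [Submodule.coe_sum, Submodule.coe_zero, ← hq]
      refine sum_congr rfl fun m _ => ?_
      rw [Submodule.coe_smul, Algebra.smul_def, halg, map_mul, map_natCast, map_pow]
      ring
    have h2 := congrArg (b.coord i) h1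
    rw [map_sum, map_zero] at h2
    rw [← h2]
    refine sum_congr rfl fun m _ => ?_
    rw [map_smul, smul_eq_mul, hR]
    ring

/-- The same over `ℝ[X]`. -/
theorem exists_poly_real {x : ℂ} (hx : Transcendental ℚ x) {P : ℂ[X]} (hP : P ≠ 0) :
    ∃ R : ℝ[X][X], R ≠ 0 ∧ R.natDegree = P.natDegree ∧
      (∀ j : ℕ, (derivative^[j] P).eval 0 = 0 → (derivative^[j] R).eval 0 = 0) ∧
      ∀ j w : ℕ, (derivative^[j] P).eval (x ^ w) = 0 → (derivative^[j] R).eval (X ^ w) = 0 := by
  obtain ⟨R, h1, h2, h3⟩ := exists_poly hx hP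
  set f : ℚ[X] →+* ℝ[X] := mapRingHom (algebraMap ℚ ℝ) with hf
  have hfi : Function.Injective f := map_injective _ (algebraMap ℚ ℝ).injective
  have key : ∀ (j : ℕ) (q : ℚ[X]), (derivative^[j] R).eval q = 0 →
      (derivative^[j] (R.map f)).eval (f q) = 0 := by
    intro j q hq
    rw [iterate_derivative_map, eval_map, eval₂_at_apply, hq, map_zero]
  refine ⟨R.map f, ?_, ?_, ?_, ?_⟩
  · rwa [Ne, Polynomial.map_eq_zero_iff hfi]
  · rw [natDegree_map_eq_of_injective hfi, h2]
  · intro j hj
    have := key j 0 (h3 j 0 (by rwa [map_zero]))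
    rwa [map_zero] at this
  · intro j w hj
    have := key j (X ^ w) (h3 j (X ^ w) (by rwa [map_pow, aeval_X]))
    rwa [map_pow, hf, coe_mapRingHom, map_X] at this

/-- The property of the nodes that decides the dope matrices. -/
def PB {m : ℕ} (Λ : Fin m → ℂ) : Prop :=
  ∀ P : ℂ[X], P ≠ 0 → ∀ Y : Finset (Fin m × ℕ),
    (∀ p ∈ Y, p.2 ≤ P.natDegree ∧ (derivative^[p.2] P).eval (Λ p.1) = 0) →
      Y.card ≤ P.natDegree

/-- The nodes `0, x ^ w 0, ..., x ^ w (r - 1)`. -/
noncomputable def nodes {r : ℕ} (x : ℂ) (w : Fin r → ℕ) : Fin (r + 1) → ℂ :=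
  Fin.cons 0 fun i => x ^ w i

theorem PB_nodes {r : ℕ} {x : ℂ} (hx : Transcendental ℚ x) {w : Fin r → ℕ}
    (hw : Function.Injective w) : PB (nodes x w) := by
  classical
  intro P hP Y hY
  obtain ⟨R, h1, h2, h3, h4⟩ := exists_poly_real hx hP
  have h5 := count (univ.image w) P.natDegree R h1 h2
  refine le_trans ?_ (le_trans (Nat.le_add_left _ _) h5)
  have h6 : Y ⊆ (range (P.natDegree + 1)).biUnion fun j =>
      ((univ : Finset (Fin (r + 1))).filter fun i =>
        (derivative^[j] P).eval (nodes x w i) = 0).map ⟨fun i => (i, j), fun a b h => by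
          simpa using h⟩ := by
    intro p hp
    obtain ⟨h7, h8⟩ := hY p hp
    rw [mem_biUnion]
    refine ⟨p.2, mem_range.2 (by omega), ?_⟩
    rw [mem_map]
    exact ⟨p.1, mem_filter.2 ⟨mem_univ _, h8⟩, rfl⟩
  refine le_trans (card_le_card h6) (le_trans card_biUnion_le (sum_le_sum fun j _ => ?_))
  rw [card_map, card_filter, Fin.sum_univ_succ, nz, sum_image fun a _ b _ h => hw h]
  refine Nat.add_le_add ?_ (sum_le_sum fun i _ => ?_)
  · simp only [nodes, Fin.cons_zero]
    split_ifs with h
    · rw [iz_pos (h3 j h)]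
    · omega
  · simp only [nodes, Fin.cons_succ]
    split_ifs with h
    · rw [iz_pos (h4 j _ h)]
    · omega

end Pool.Agent.Helper449_Dope
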